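import Pool.Agent.helper59.FI.SpecB2

/-!
# Row CON of project fi (MP_baa4d7_al), block A2: every subpair is conjugate into the maximal one
-/

set_option autoImplicit false

namespace Pool.Agent.FI

open Pool.Agent.helper58.DC Pool.Agent.DI Pool.Agent.GR Pool.Agent.OB

theorem CON_cz_bot {G : Type} [Group G] : cz (⊥ : Subgroup G) = ⊤ := by
  rw [eq_top_iff]
  intro x _
  rw [Subgroup.mem_centralizer_iff]
  intro y hy
  have h1 : y = 1 := Subgroup.mem_bot.1 hy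
  rw [h1, one_mul, mul_one]

theorem CON (hCOA : COA_stmt) (hUNI : UNI_stmt) (hDEX : DEX_stmt) (hDGL : DGL_stmt) : CON_stmt := by
  intro p M hS G _ _ D x θ χ hR Q hQ ψ hψ hind
  obtain ⟨D₁, x₁, hD₁, -⟩ := hDEX p M hS G (cz Q) ψ hψ
  obtain ⟨θ₁, hθ₁, hs₁⟩ := hDGL p M hS G (cz Q) ψ hψ D₁ x₁ hD₁
  obtain ⟨hQD, hi₁, g₀, hg₀⟩ := hCOA p M hS G D x θ χ hR Q hQ ψ hψ hind D₁ x₁ hD₁ θ₁ hθ₁ hs₁
  have hg₀' : cj g₀ D₁ = D := hg₀
  have hle : cz D₁ ≤ cz Q := cz_mono hQD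
  rw [inf_eq_right.2 hle] at hθ₁
  have hθ₂ : funMap (MulAut.conj g₀) θ₁ ∈ IrrOn (cz D) := by
    have h := IrrOn_funMap hθ₁ g₀
    rwa [← cj_cz, hg₀'] at h
  have hi₂ : Induces M (funMap (MulAut.conj g₀) θ₁) χ := Induces_funMap hS hi₁ g₀
  have hbot : cz (⊥ : Subgroup G) = ⊤ := CON_cz_bot
  have hχ : χ ∈ IrrOn (cz (⊥ : Subgroup G)) := by
    rw [hbot]
    exact IrrOn_top.2 hR.chi
  have hs₂ : SB M (cz (⊥ : Subgroup G)) θ χ := by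
    rw [hbot]
    exact (SB_top_iff hS).2 hR.ind
  have hs₃ : SB M (cz (⊥ : Subgroup G)) (funMap (MulAut.conj g₀) θ₁) χ := by
    rw [hbot]
    exact (SB_top_iff hS).2 hi₂
  obtain ⟨n, -, hn, hns⟩ := hUNI p M hS G D x θ χ hR ⊥ bot_le χ hχ hs₂ _ hθ₂ hs₃
  rw [← funMap_mul] at hns
  have hgD : cj (n * g₀) D₁ = D := by rw [cj_mul, hg₀', cj_nz.2 hn]
  have hgQ : cj (n * g₀) Q ≤ D := by
    rw [← hgD]
    exact cj_mono hQD
  have hgθ : funMap (MulAut.conj (n * g₀)) θ₁ ∈ IrrOn (cz D) := by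
    have h := IrrOn_funMap hθ₁ (n * g₀)
    rwa [← cj_cz, hgD] at h
  refine ⟨n * g₀, hgQ, ?_⟩
  change SB M (cz (cj (n * g₀) Q)) θ (funMap (MulAut.conj (n * g₀)) ψ)
  have h1 : SB M (cz (cj (n * g₀) Q)) (funMap (MulAut.conj (n * g₀)) θ₁)
      (funMap (MulAut.conj (n * g₀)) ψ) := by
    have h := SB_conj hs₁ (n * g₀)
    rwa [← cj_cz] at h
  have h2 : SB M (cz (cj (n * g₀) Q)) (funMap (MulAut.conj (n * g₀)) θ₁) θ :=
    TRNb (cz_mono hgQ) (fun y hy => IrrOn_zero hgθ hy) (fun y hy => IrrOn_zero hR.th hy) hns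
  exact h2.symm.trans h1

end Pool.Agent.FI
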