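import Pool.Agent.helper70.FI.SpecQ1

/-!
# Row QDC of project fi (MP_baa4d7_al), block Q1: transport of the generalised decomposition numbers
-/

set_option autoImplicit false

namespace Pool.Agent.FI

open Pool.Agent.helper58.DC Pool.Agent.DI Pool.Agent.GR Pool.Agent.OB

theorem QDC_inv {G : Type} [Group G] (l : G) (ψ : G → ℂ) : cjF l⁻¹ (cjF l ψ) = ψ := by
  funext x
  rw [cjF_apply, cjF_apply]
  have h : l⁻¹ * (l⁻¹⁻¹ * x * l⁻¹) * l = x := by group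
  rw [h]

theorem QDC_inv' {G : Type} [Group G] (l : G) (ψ : G → ℂ) : cjF l (cjF l⁻¹ ψ) = ψ := by
  funext x
  rw [cjF_apply, cjF_apply]
  have h : l⁻¹⁻¹ * (l⁻¹ * x * l) * l⁻¹ = x := by group
  rw [h]

theorem QDC (hFEQ : FEQ_stmt) (hQCJ : QCJ_stmt) (hB2 : B2_stmt) : QDC_stmt := by
  intro G _ _ M L θ l hl u χ' hχ'
  have hL : cjS l L = L := by
    obtain ⟨-, ⟨-, -, -, h, -⟩, -⟩ := hFEQ G M l 1 L L L θ θ θ
    exact h.2 (Subgroup.le_normalizer hl)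
  have hK : cjS l (Cz L u) = Cz L (l * u * l⁻¹) := by
    obtain ⟨-, -, h, -⟩ := hFEQ G M l 1 L L L θ θ θ
    rw [h u, hL]
  have hcl : ∀ x, χ' (l * x * l⁻¹) = χ' x := fun x => ((hB2 G L).2 χ' hχ').2.1 x l hl
  have hBl : ∀ ψ : G → ℂ, ψ ∈ Bl M (Cz L u) θ ↔ cjF l ψ ∈ Bl M (cjS l (Cz L u)) (cjF l θ) := by
    intro ψ
    obtain ⟨-, -, -, -, -, -, h, -⟩ := hFEQ G M l 1 L L (Cz L u) θ ψ ψ
    exact h
  unfold dd
  rw [← hK]
  symm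
  refine finsum_mem_eq_of_bijOn (cjF l) ⟨fun ψ hψ => (hBl ψ).1 hψ, fun a _ b _ hab => ?_,
    fun ψ hψ => ⟨cjF l⁻¹ ψ, ?_, QDC_inv' l ψ⟩⟩ fun ψ _ => ?_
  · have h := congrArg (cjF l⁻¹) hab
    rwa [QDC_inv, QDC_inv] at h
  · rw [hBl, QDC_inv']
    exact hψ
  · rw [(hQCJ G l (Cz L u)).2 χ' hcl ψ, cjF_apply, cjF_apply]
    have h1 : l⁻¹ * (l * u * l⁻¹) * l = u := by group
    have h2 : l⁻¹ * 1 * l = 1 := by group
    rw [h1, h2]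

end Pool.Agent.FI
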